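import Pool.Agent.Lib_MP_ff3433_gt.HBuild
import Pool.Agent.Lib_MP_ff3433_gt.Inequiv
import Pool.Agent.Lib_MP_ff3433_gt.Symm

/-!
# Symmetric branched circle packings of the sphere are not unique

We exhibit a combinatorial closed disc `K` with 14 vertices and a branch structure for `K` (two
simple branch vertices) such that the double of `K` has two essentially different circle packings
of the sphere with the doubled branch set.

`K`: the vertices `0, 1` (poles), `2, 3, 4` and `5, 6, 7` form the boundary octagon
`0, 5, 6, 7, 1, 4, 3, 2`; the path `0, 8, 9, 10, 11, 1` cuts the octagon in two, and each of the two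
halves is a cone with apex `12`, resp. `13`.

Both packings are symmetric with respect to two orthogonal great circles: the circles of the
boundary octagon are orthogonal to the first one, and those of the middle path
`0, 8, 9, 10, 11, 1` to the second one.  In the first packing the circles of `1` and `2` meet, in
the second one they are disjoint.
-/

namespace Pool.Agent.Results.MP_ff3433_gt.NotUnique

open Pool.Agent.BranchedPacking

lemma symmetric_pack (N : Ex.Nums) : N.pack.IsSymmetric := by
  constructor
  · intro v hv
    have h1 : N.data.y v = 0 := N.data.bdry v hv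
    have h2 : N.pack.ctr (Sum.inl v) 1 = ‖N.data.dvec (Sum.inl v)‖⁻¹ * (1 * N.data.y v) := rfl
    rw [h2, h1]; simp
  · intro v
    have hn : ‖N.data.dvec (Sum.inr v)‖ = ‖N.data.dvec (Sum.inl v.1)‖ := by
      rw [MData.dvec_norm, MData.dvec_norm]; rfl
    have h0 : N.pack.ctr (Sum.inr v) 0 = ‖N.data.dvec (Sum.inr v)‖⁻¹ * N.data.x v.1 := rfl
    have h1 : N.pack.ctr (Sum.inr v) 1 = ‖N.data.dvec (Sum.inr v)‖⁻¹ * (-1 * N.data.y v.1) := rfl
    have h2 : N.pack.ctr (Sum.inr v) 2 = ‖N.data.dvec (Sum.inr v)‖⁻¹ * N.data.z v.1 := rfl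
    have k0 : N.pack.ctr (Sum.inl v.1) 0 = ‖N.data.dvec (Sum.inl v.1)‖⁻¹ * N.data.x v.1 := rfl
    have k1 : N.pack.ctr (Sum.inl v.1) 1 = ‖N.data.dvec (Sum.inl v.1)‖⁻¹ * (1 * N.data.y v.1) :=
      rfl
    have k2 : N.pack.ctr (Sum.inl v.1) 2 = ‖N.data.dvec (Sum.inl v.1)‖⁻¹ * N.data.z v.1 := rfl
    refine ⟨rfl, ?_, ?_, ?_⟩
    · rw [h0, k0, hn]
    · rw [h1, k1, hn]; ring
    · rw [h2, k2, hn]

/-- There are a combinatorial closed disc `face` and a branch structure `k` for it, satisfying also
the combinatorial condition of Dubejko, such that the double of the disc has two circle packings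
`P` and `Q` of the sphere with the doubled branch set (both symmetric under the doubling
reflection), and no map of the sphere to itself maps the circles of `P` to those of `Q`, not even
after a relabelling by an automorphism of the double. -/
theorem result :
    ∃ (V : Type) (_ : Fintype V) (face : V → V → V → Prop) (k : V → ℕ)
      (_ : Fintype (DoubleVertex face)) (P Q : SpherePacking (double face)),
      IsClosedDisc face ∧ IsBranchStructure face k ∧ DubejkoCondition face k ∧
      IsSphere (double face) ∧
      P.HasBranchSet (fun t => k (under t)) ∧ Q.HasBranchSet (fun t => k (under t)) ∧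
      P.IsSymmetric ∧ Q.IsSymmetric ∧
      ∀ σ : Equiv.Perm (DoubleVertex face),
        (∀ u v, Adj (double face) (σ u) (σ v) ↔ Adj (double face) u v) →
        ∀ φ : Metric.sphere (0 : E3) 1 → Metric.sphere (0 : E3) 1,
          ¬ ∀ v, φ '' P.circle v = Q.circle (σ v) := by
  obtain ⟨N, hN, h0, h1⟩ := Ex.exists_first
  obtain ⟨N', hN', hneg⟩ := Ex.exists_second
  let _ : Fintype (DoubleVertex Ex.K) := Fintype.ofEquiv _ Ex.numEquiv
  exact ⟨Fin 14, inferInstance, Ex.K, Ex.mult, inferInstance, N.pack, N'.pack, Ex.disc_K,
    Ex.branch_K, Ex.dubejko_K, Ex.sphere_double, N.hasBranchSet hN, N'.hasBranchSet hN',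
    symmetric_pack N, symmetric_pack N', fun σ hσ φ =>
      Ex.not_equivalent N N' h0 h1 hneg σ hσ φ⟩

end Pool.Agent.Results.MP_ff3433_gt.NotUnique
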